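import Mathlib
import Pool.Agent.H67.Defs
import Pool.Agent.H67.Final

/-!
Classification, up to equivalence, of all pairs `(G, A)` where `G` is a finite group and `A` is an
affine map of `G` with `ord(A) > |G| / 2`. The definitions used in the statement are in
`Pool/Agent/H67/Defs.lean`.
-/

namespace Pool.Agent.Results.MP_84eb5c_al.Classification

open Equiv H67

/-- The pairs `(G, A)`, `A` affine and `|G| < 2 ord(A)`, are exactly the listed ones; every choice of
parameters in the list is realised; two listed pairs are equivalent if and only if their parameters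
agree in the explicit sense of `ListingEquiv`, `FullEquiv`, `AmalgamEquiv` and `CoreEquiv`; and all
these groups `G` are metabelian. -/
theorem result :
    (∀ (G : Type) [Group G] [Finite G] (A : Perm G),
      (IsAffine A ∧ Nat.card G < 2 * orderOf A) ↔ IsListed G A) ∧
    (CoresRealised ∧ PairsRealised) ∧
    (ListingEquiv ∧ FullEquiv ∧ AmalgamEquiv ∧ CoreEquiv) ∧
    (∀ (G : Type) [Group G] [Finite G] (A : Perm G), IsAffine A → Nat.card G < 2 * orderOf A →
      derivedSeries G 2 = ⊥) :=
  ⟨fun G _ _ A => main_iff G A, ⟨coresRealised, pairsRealised⟩,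
    ⟨listingEquiv, fullEquiv, amalgamEquiv, coreEquiv⟩,
    fun G _ _ A hA h => listed_metabelian ((main_iff G A).mp ⟨hA, h⟩)⟩

end Pool.Agent.Results.MP_84eb5c_al.Classification
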